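import Pool.Agent.P.MP_0aed39_co.Exact

namespace Pool.Agent.Results.MP_0aed39_co.ExactDiverse

open Finset Pool.Agent.P.MP_0aed39_co

/-- The bundle of agent `i` when good `g` goes to agent `a g`. -/
def bundle {n m : ℕ} (a : Fin m → Fin n) (i : Fin n) : Finset (Fin m) :=
  univ.filter fun g => a g = i

/-- Envy freeness up to one good for the additive valuations with item values `v i g`. -/
def EF1 {n m : ℕ} (v : Fin n → Fin m → ℝ) (a : Fin m → Fin n) : Prop :=
  ∀ i j, bundle a j = ∅ ∨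
    ∃ g ∈ bundle a j, ∑ x ∈ (bundle a j).erase g, v i x ≤ ∑ x ∈ bundle a i, v i x

/-- The number of edges with both ends in one bundle. -/
noncomputable def viol {n m : ℕ} (G : SimpleGraph (Fin m)) (a : Fin m → Fin n) : ℕ :=
  {e ∈ G.edgeSet | ∃ i, ∀ g ∈ e, g ∈ bundle a i}.ncard

/-- Two goods are twins when every third good is adjacent to both or to neither. -/
def Twins {m : ℕ} (G : SimpleGraph (Fin m)) (x y : Fin m) : Prop :=
  ∀ z, z ≠ x → z ≠ y → (G.Adj z x ↔ G.Adj z y)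

theorem result (n : ℕ) (hn : 2 ≤ n) (K : ℝ) : ∃ D : ℕ, ∀ (m : ℕ) (v : Fin n → Fin m → ℝ),
    (∀ i g, 0 ≤ v i g) → ∀ G : SimpleGraph (Fin m),
      (∃ T : Finset (Fin m), D ≤ T.card ∧ ∀ x ∈ T, ∀ y ∈ T, x ≠ y → ¬ Twins G x y) →
        ∃ a : Fin m → Fin n, EF1 v a ∧ (viol G a : ℝ) ≤ (G.edgeSet.ncard : ℝ) / n - K := by
  classical
  obtain ⟨D, hD⟩ := main_apart n hn (2 * K)
  refine ⟨D, fun m v hv G ⟨T, hT, hT'⟩ => ?_⟩
  obtain ⟨a, h1, h2⟩ := hD (Fin m) G v hv T (fun x hx y hy hxy => by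
    have h := hT' x hx y hy hxy
    simp only [Twins, not_forall] at h
    obtain ⟨z, h3, h4, h5⟩ := h
    exact ⟨z, h3, h4, h5⟩) hT
  have e : ∀ i j, P.MP_0aed39_co.val (v i) a univ j = ∑ x ∈ bundle a j, v i x := fun i j => by
    rw [P.MP_0aed39_co.val, bundle, sum_filter]
  refine ⟨a, fun i j => ?_, ?_⟩
  · rcases (bundle a j).eq_empty_or_nonempty with h | ⟨g, hg⟩
    · exact Or.inl h
    right
    rcases h1 i j with h | ⟨g', h3, h4⟩
    · refine ⟨g, hg, ?_⟩
      rw [e, e, ← add_sum_erase _ _ hg] at h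
      linarith [hv i g]
    · have h5 : g' ∈ bundle a j := mem_filter.2 ⟨mem_univ _, h3⟩
      refine ⟨g', h5, ?_⟩
      rw [e, e, ← add_sum_erase _ _ h5] at h4
      linarith
  · let H : SimpleGraph (Fin m) :=
      { Adj := fun g h => G.Adj g h ∧ a g = a h
        symm := ⟨fun g h hh => ⟨hh.1.symm, hh.2.symm⟩⟩
        loopless := ⟨fun g hh => G.irrefl hh.1⟩ }
    have h3 : H.edgeSet = {e ∈ G.edgeSet | ∃ i, ∀ g ∈ e, g ∈ bundle a i} := by
      ext e
      induction e using Sym2.ind with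
      | _ g h =>
        simp only [SimpleGraph.mem_edgeSet, Set.mem_ofPred_eq, Sym2.mem_iff, forall_eq_or_imp,
          forall_eq, bundle, mem_filter, mem_univ, true_and, H]
        constructor
        · rintro ⟨h4, h5⟩; exact ⟨h4, a h, h5, rfl⟩
        · rintro ⟨h4, i, h5, h6⟩; exact ⟨h4, h5.trans h6.symm⟩
    have h4 := twice_edges H
    rw [twice_edges G] at h2
    rw [h3] at h4
    have h5 : (2 : ℝ) * viol G a ≤ 2 * (G.edgeSet.ncard : ℝ) / n - 2 * K := by
      rw [viol, ← h4]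
      convert h2
    rw [mul_div_assoc] at h5
    linarith

end Pool.Agent.Results.MP_0aed39_co.ExactDiverse
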