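import Pool.Agent.P.MP_0aed39_co.Twin

namespace Pool.Agent.Results.MP_0aed39_co.FiniteCore

open Finset Pool.Agent.P.MP_0aed39_co

/-- The bundle of agent `i` when good `g` goes to agent `a g`. -/
def bundle {n m : ℕ} (a : Fin m → Fin n) (i : Fin n) : Finset (Fin m) :=
  univ.filter fun g => a g = i

/-- Envy freeness up to one good for the additive valuations with item values `v i g`. -/
def EF1 {n m : ℕ} (v : Fin n → Fin m → ℝ) (a : Fin m → Fin n) : Prop :=
  ∀ i j, bundle a j = ∅ ∨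
    ∃ g ∈ bundle a j, ∑ x ∈ (bundle a j).erase g, v i x ≤ ∑ x ∈ bundle a i, v i x

/-- The number of edges with both ends in one bundle. -/
noncomputable def viol {n m : ℕ} (G : SimpleGraph (Fin m)) (a : Fin m → Fin n) : ℕ :=
  {e ∈ G.edgeSet | ∃ i, ∀ g ∈ e, g ∈ bundle a i}.ncard

/-- The instance has an EF1 allocation with at most `|E| / n` violations. -/
def Good {n m : ℕ} (v : Fin n → Fin m → ℝ) (G : SimpleGraph (Fin m)) : Prop :=
  ∃ a : Fin m → Fin n, EF1 v a ∧ (viol G a : ℝ) ≤ (G.edgeSet.ncard : ℝ) / n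

theorem good_iff {n m : ℕ} (v : Fin n → Fin m → ℝ) (hv : ∀ i g, 0 ≤ v i g)
    (G : SimpleGraph (Fin m)) [DecidableRel G.Adj] : Good v G ↔ GoodOn G v univ := by
  classical
  refine exists_congr fun a => and_congr (forall₂_congr fun i j => ?_) ?_
  · have e : ∀ i j, P.MP_0aed39_co.val (v i) a univ j = ∑ x ∈ bundle a j, v i x := fun i j => by
      rw [P.MP_0aed39_co.val, bundle, sum_filter]
    rw [e, e]
    constructor
    · rintro (h | ⟨g, hg, h⟩)
      · left
        rw [h, sum_empty]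
        exact sum_nonneg fun g _ => hv i g
      · refine Or.inr ⟨g, mem_univ g, (mem_filter.1 hg).2, ?_⟩
        rw [← add_sum_erase _ _ hg]
        linarith
    · intro h1
      rcases (bundle a j).eq_empty_or_nonempty with h | ⟨g, hg⟩
      · exact Or.inl h
      right
      rcases h1 with h | ⟨g', -, h3, h4⟩
      · refine ⟨g, hg, ?_⟩
        rw [← add_sum_erase _ _ hg] at h
        linarith [hv i g]
      · have h5 : g' ∈ bundle a j := mem_filter.2 ⟨mem_univ _, h3⟩
        refine ⟨g', h5, ?_⟩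
        rw [← add_sum_erase _ _ h5] at h4
        linarith
  · let H : SimpleGraph (Fin m) :=
      { Adj := fun g h => G.Adj g h ∧ a g = a h
        symm := ⟨fun g h hh => ⟨hh.1.symm, hh.2.symm⟩⟩
        loopless := ⟨fun g hh => G.irrefl hh.1⟩ }
    have h3 : H.edgeSet = {e ∈ G.edgeSet | ∃ i, ∀ g ∈ e, g ∈ bundle a i} := by
      ext e
      induction e using Sym2.ind with
      | _ g h =>
        simp only [SimpleGraph.mem_edgeSet, Set.mem_ofPred_eq, Sym2.mem_iff, forall_eq_or_imp,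
          forall_eq, bundle, mem_filter, mem_univ, true_and, H]
        constructor
        · rintro ⟨h4, h5⟩; exact ⟨h4, a h, h5, rfl⟩
        · rintro ⟨h4, i, h5, h6⟩; exact ⟨h4, h5.trans h6.symm⟩
    have h4 := twice_edges H
    rw [h3] at h4
    have h5 : (∑ g, ∑ h, if G.Adj g h ∧ a g = a h then (1 : ℝ) else 0) = 2 * viol G a := by
      rw [viol, ← h4]
    rw [h5, twice_edges G, mul_div_assoc]
    constructor <;> intro h <;> linarith

theorem result (n : ℕ) (hn : 1 ≤ n) : ∃ M : ℕ, ∀ (m : ℕ) (v : Fin n → Fin m → ℝ),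
    (∀ i g, 0 ≤ v i g) → ∀ G : SimpleGraph (Fin m),
      (∀ k ≤ M, ∀ e : Fin k ↪ Fin m, Good (fun i x => v i (e x)) (G.comap e)) → Good v G := by
  classical
  obtain ⟨M, hM⟩ := finite_core n hn
  refine ⟨M, fun m v hv G h => (good_iff v hv G).2 (hM (Fin m) G v hv (fun U hU => ?_) univ)⟩
  let e : Fin U.card ↪ Fin m := (U.orderEmbOfFin rfl).toEmbedding
  have h1 := GoodOn.map hn G v e ((good_iff _ (fun i x => hv i (e x)) _).1 (h _ hU e))
  have h2 : univ.map e = U := by
    ext x
    have h3 := Set.ext_iff.1 (U.range_orderEmbOfFin rfl) x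
    rw [mem_coe] at h3
    rw [mem_map, ← h3]
    exact ⟨fun ⟨a, _, ha⟩ => ⟨a, ha⟩, fun ⟨a, ha⟩ => ⟨a, mem_univ a, ha⟩⟩
  rwa [h2] at h1

end Pool.Agent.Results.MP_0aed39_co.FiniteCore
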